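import Pool.Agent.Vis.Graph

/-!
# A lower bound for the vertex connectivity of point visibility graphs
-/

namespace Pool.Agent.Results.MP_40348b_co.ConnBound

open Pool.Vis

/-- For every finite point set in the plane, the vertex connectivity `κ` and the minimum degree
`δ` of its visibility graph satisfy `κ ≥ δ`, or `(2 k + 1) κ ≥ (k + 1) δ + k ^ 2` for some
`k ≥ 1` such that some line contains at least `2 k + 1` of the points. -/
theorem result (P : Finset (ℝ × ℝ)) :
    minDeg (visGraph P) ≤ vertexConn (visGraph P) ∨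
    ∃ k : ℕ, 1 ≤ k ∧ (∃ S ⊆ P, S.card = 2 * k + 1 ∧ Collinear ℝ (S : Set (ℝ × ℝ))) ∧
      (k + 1) * minDeg (visGraph P) + k ^ 2 ≤ (2 * k + 1) * vertexConn (visGraph P) :=
  graph_bound P

end Pool.Agent.Results.MP_40348b_co.ConnBound
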