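import Pool.Agent.PVG.Fin

/-!
The vertex connectivity of point visibility graphs with few lines through five points
-/

namespace Pool.Agent.Results.MP_40348b_co.FewRichLines

open Pool.Vis Pool.PVG

/-- Let `P` be a finite set of at least two points of the plane, `δ` the minimum degree and `κ` the
vertex connectivity of its visibility graph. If at most `m ≥ 2` lines contain five or more points of
`P`, and none of them more than `l` points, then `6 κ + (m - 2) (l - 3) ≥ 4 δ + 2`. For `m = 2` this
is `3 κ ≥ 2 δ + 1`. -/
theorem result (P : Finset (ℝ × ℝ)) (hP : 2 ≤ P.card) (m l : ℕ) (hm : 2 ≤ m)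
    (hcard : (richLines P).card ≤ m) (hl : ∀ T ∈ richLines P, T.card ≤ l) :
    4 * minDeg (visGraph P) + 2 ≤ 6 * vertexConn (visGraph P) + (m - 2) * (l - 3) :=
  (graph_bound2 P hP).1.2 m l hm hcard hl

end Pool.Agent.Results.MP_40348b_co.FewRichLines
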