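import Pool.Agent.PVG.Fin

/-!
A lower bound for the vertex connectivity of point visibility graphs
-/

namespace Pool.Agent.Results.MP_40348b_co.FourSevenths

open Pool.Vis Pool.PVG

/-- Let `P` be a finite set of at least two points of the plane, `δ` the minimum degree and `κ` the
vertex connectivity of its visibility graph. Then `7 κ ≥ 4 δ + 2`, and if every line contains at
most `2 j + 2` points of `P`, where `j ≥ 1`, then `(7 j - 4) κ ≥ (4 j - 2) δ + j`. -/
theorem result (P : Finset (ℝ × ℝ)) (hP : 2 ≤ P.card) :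
    4 * minDeg (visGraph P) + 2 ≤ 7 * vertexConn (visGraph P) ∧
    ∀ j : ℕ, 1 ≤ j → (∀ T ⊆ P, Collinear ℝ (T : Set (ℝ × ℝ)) → T.card ≤ 2 * j + 2) →
      (4 * j - 2) * minDeg (visGraph P) + j ≤ (7 * j - 4) * vertexConn (visGraph P) := by
  refine ⟨(graph_bound2 P hP).1.1, fun j hj h => (graph_bound2 P hP).2 j hj fun T hT => ?_⟩
  obtain ⟨hTP, _, a, b, c, hab, hT2⟩ := mem_richLines.mp hT
  exact h T hTP (coll_collinear T ⟨⟨a, b, -c⟩, hab, fun p hp => by
    have := (hT2 p (hTP hp)).mp hp
    simp only [Fn.ev]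
    linarith⟩)

end Pool.Agent.Results.MP_40348b_co.FourSevenths
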